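import Pool.Agent.Helper37.GP.Defs3

/-!
# GP-24 : the separation condition (MP_290158_ag)
-/

namespace Pool.Agent.Helper37.GP

theorem sep_large {s₀ c : ℝ} (h0 : 0 < s₀) (h1 : s₀ < 1) (_hc : c ≠ 0) :
    ∃ C₁ : ℕ, ∀ (d K a : ℕ) (k : Fin d → ℕ), 1 ≤ K → StrictMono k →
      (∀ j, K ≤ k j ∧ k j < 2 * K) → C₁ * K ≤ a →
      ∀ i j : Fin d, i < j → ∀ u : ℝ, (u = -(c / s₀) ∨ u = c / (1 - s₀)) →
        (a : ℝ) + (k j / k i) * (u - a) ≠ 0 ∧ 0 < s₀ + c / (a + (k j / k i) * (u - a)) ∧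
          s₀ + c / (a + (k j / k i) * (u - a)) < 1 := by
  set m : ℝ := min s₀ (1 - s₀) with hm
  have hm0 : 0 < m := lt_min h0 (by linarith)
  have hms : m ≤ s₀ := min_le_left _ _
  have hms' : m ≤ 1 - s₀ := min_le_right _ _
  obtain ⟨C₁, hC₁⟩ := exists_nat_gt (6 * (|c| / m))
  refine ⟨C₁, ?_⟩
  intro d K a k hK hk hkK ha i j hij u hu
  have hK0 : (0 : ℝ) < K := by exact_mod_cast hK
  have hki : (0 : ℝ) < k i := by
    have : 1 ≤ k i := le_trans hK (hkK i).1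
    exact_mod_cast this
  have hki2 : (k i : ℝ) ≤ 2 * K := by exact_mod_cast (hkK i).2.le
  have hkiK : (K : ℝ) ≤ k i := by exact_mod_cast (hkK i).1
  have hkj2 : (k j : ℝ) < 2 * K := by exact_mod_cast (hkK j).2
  have hlt : (k i : ℝ) + 1 ≤ k j := by exact_mod_cast hk hij
  set r : ℝ := (k j : ℝ) / k i with hr
  have hrk : r * k i = k j := by rw [hr]; field_simp
  have hr2 : r < 2 := by
    rw [hr, div_lt_iff₀ hki]; nlinarith
  have hr1 : 1 / (2 * K) ≤ r - 1 := by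
    rw [div_le_iff₀ (by positivity)]
    have h2 : (r - 1) * k i ≥ 1 := by rw [sub_mul, hrk]; linarith
    have h3 : 0 ≤ r - 1 := by
      by_contra h
      push Not at h
      nlinarith
    nlinarith
  have hu1 : |u| ≤ |c| / m := by
    rcases hu with rfl | rfl
    · rw [abs_neg, abs_div, abs_of_pos h0]
      exact div_le_div_of_nonneg_left (abs_nonneg c) hm0 hms
    · rw [abs_div, abs_of_pos (by linarith : (0 : ℝ) < 1 - s₀)]
      exact div_le_div_of_nonneg_left (abs_nonneg c) hm0 hms'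
  have haK : (C₁ : ℝ) * K ≤ a := by exact_mod_cast ha
  have har : (C₁ : ℝ) / 2 ≤ a * (r - 1) := by
    calc (C₁ : ℝ) / 2 = (C₁ * K) * (1 / (2 * K)) := by field_simp
      _ ≤ a * (r - 1) := by
          apply mul_le_mul haK hr1 (by positivity) (by positivity)
  have hr0 : 0 < r := by
    have : (0 : ℝ) < k j := by linarith
    rw [hr]; positivity
  have hru : r * |u| ≤ 2 * (|c| / m) := by
    apply mul_le_mul hr2.le hu1 (abs_nonneg u) (by norm_num)
  have hv : (a : ℝ) + r * (u - a) ≤ -(|c| / m) - 1 * 0 - (C₁ / 2 - 3 * (|c| / m)) := by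
    have h3 : r * u ≤ r * |u| := mul_le_mul_of_nonneg_left (le_abs_self u) hr0.le
    nlinarith
  set v : ℝ := (a : ℝ) + r * (u - a) with hvdef
  have hvneg : v < -(|c| / m) := by linarith
  have hcm : 0 ≤ |c| / m := by positivity
  have hv0 : v < 0 := by linarith
  have hvabs : |c| / m < |v| := by rw [abs_of_neg hv0]; linarith
  have hcv : |c / v| < m := by
    rw [abs_div, div_lt_iff₀ (by linarith)]
    rw [div_lt_iff₀ hm0] at hvabs
    linarith
  have hcv' := abs_lt.1 hcv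
  exact ⟨ne_of_lt hv0, by linarith, by linarith⟩

theorem sep_zero {s₀ c : ℝ} (h0 : 0 < s₀) (h1 : s₀ < 1) (hc : c ≠ 0) {d : ℕ} {k : Fin d → ℕ}
    (hk : StrictMono k) (hk1 : ∀ j, 1 ≤ k j) :
      ∀ i j : Fin d, i < j → ∀ u : ℝ, (u = -(c / s₀) ∨ u = c / (1 - s₀)) →
        (0 : ℝ) + (k j / k i) * (u - 0) ≠ 0 ∧ 0 < s₀ + c / (0 + (k j / k i) * (u - 0)) ∧
          s₀ + c / (0 + (k j / k i) * (u - 0)) < 1 := by
  intro i j hij u hu
  have hki : (0 : ℝ) < k i := by exact_mod_cast hk1 i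
  have hkj : (0 : ℝ) < k j := by exact_mod_cast hk1 j
  have hlt : (k i : ℝ) < k j := by exact_mod_cast hk hij
  have hr1 : (1 : ℝ) < k j / k i := by rw [one_lt_div hki]; exact hlt
  set r : ℝ := (k j : ℝ) / k i with hr
  have hr0 : 0 < r := by linarith
  have hinv : r⁻¹ < 1 := inv_lt_one_of_one_lt₀ hr1
  have hinv0 : 0 < r⁻¹ := inv_pos.2 hr0
  have h1' : (0 : ℝ) < 1 - s₀ := by linarith
  rw [zero_add, sub_zero]
  rcases hu with rfl | rfl
  · have e : c / (r * -(c / s₀)) = -(s₀ * r⁻¹) := by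
      field_simp
    rw [e]
    refine ⟨?_, ?_, ?_⟩
    · exact mul_ne_zero hr0.ne' (neg_ne_zero.2 (div_ne_zero hc h0.ne'))
    · nlinarith
    · nlinarith
  · have e : c / (r * (c / (1 - s₀))) = (1 - s₀) * r⁻¹ := by
      field_simp
    rw [e]
    refine ⟨?_, ?_, ?_⟩
    · exact mul_ne_zero hr0.ne' (div_ne_zero hc h1'.ne')
    · positivity
    · nlinarith

end Pool.Agent.Helper37.GP
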