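import Pool.Agent.Helper37.GP.Defs3

/-!
# GP-25 : the period matrix is `PR * diag(4, -4i)` (MP_290158_ag)
-/

open MeasureTheory Set

namespace Pool.Agent.Helper37.GP

/-- Substitution `u = sin² θ`. -/
theorem integral_sin_sq (h : ℝ → ℂ) :
    ∫ u in (0 : ℝ)..1, h u / ((Real.sqrt (u * (1 - u)) : ℝ) : ℂ) =
      2 * ∫ θ in (0 : ℝ)..(Real.pi / 2), h (Real.sin θ ^ 2) := by
  have hpi : (0 : ℝ) < Real.pi / 2 := by positivity
  have himg : (fun θ : ℝ => Real.sin θ ^ 2) '' Ioo 0 (Real.pi / 2) = Ioo 0 1 := by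
    ext u
    constructor
    · rintro ⟨θ, ⟨h1, h2⟩, rfl⟩
      have hs : 0 < Real.sin θ := Real.sin_pos_of_pos_of_lt_pi h1 (by linarith)
      have hc : 0 < Real.cos θ := Real.cos_pos_of_mem_Ioo ⟨by linarith, h2⟩
      refine ⟨by positivity, ?_⟩
      have := Real.sin_sq_add_cos_sq θ
      have hc2 : 0 < Real.cos θ ^ 2 := by positivity
      simp only
      linarith
    · rintro ⟨h1, h2⟩
      have hs0 : 0 < Real.sqrt u := Real.sqrt_pos.2 h1
      have hs1 : Real.sqrt u < 1 := by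
        rw [Real.sqrt_lt' one_pos]; simpa using h2
      refine ⟨Real.arcsin (Real.sqrt u), ⟨?_, ?_⟩, ?_⟩
      · exact Real.arcsin_pos.2 hs0
      · exact Real.arcsin_lt_pi_div_two.2 hs1
      · simp only
        rw [Real.sin_arcsin (by linarith) hs1.le, Real.sq_sqrt h1.le]
  have hinj : InjOn (fun θ : ℝ => Real.sin θ ^ 2) (Ioo 0 (Real.pi / 2)) := by
    intro x hx y hy hxy
    simp only at hxy
    have hsx : 0 < Real.sin x := Real.sin_pos_of_pos_of_lt_pi hx.1 (by linarith [hx.2])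
    have hsy : 0 < Real.sin y := Real.sin_pos_of_pos_of_lt_pi hy.1 (by linarith [hy.2])
    have h1 : Real.sin x = Real.sin y := by
      have := (sq_eq_sq₀ hsx.le hsy.le).1 hxy
      exact this
    exact Real.injOn_sin ⟨by linarith [hx.1], hx.2.le⟩ ⟨by linarith [hy.1], hy.2.le⟩ h1
  have hder : ∀ x ∈ Ioo (0 : ℝ) (Real.pi / 2),
      HasDerivWithinAt (fun θ : ℝ => Real.sin θ ^ 2) (2 * Real.sin x * Real.cos x)
        (Ioo 0 (Real.pi / 2)) x := by
    intro x _
    have := ((Real.hasDerivAt_sin x).fun_pow 2).hasDerivWithinAt (s := Ioo 0 (Real.pi / 2))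
    simpa using this
  have key := integral_image_eq_integral_abs_deriv_smul (s := Ioo (0 : ℝ) (Real.pi / 2))
    measurableSet_Ioo hder hinj (fun u => h u / ((Real.sqrt (u * (1 - u)) : ℝ) : ℂ))
  rw [himg] at key
  rw [intervalIntegral.integral_of_le zero_le_one, integral_Ioc_eq_integral_Ioo, key,
    intervalIntegral.integral_of_le hpi.le, integral_Ioc_eq_integral_Ioo, ← integral_const_mul]
  refine setIntegral_congr_fun measurableSet_Ioo ?_
  intro x hx
  have hs : 0 < Real.sin x := Real.sin_pos_of_pos_of_lt_pi hx.1 (by linarith [hx.2])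
  have hc : 0 < Real.cos x := Real.cos_pos_of_mem_Ioo ⟨by linarith [hx.1], hx.2⟩
  have e1 : Real.sqrt (Real.sin x ^ 2 * (1 - Real.sin x ^ 2)) = Real.sin x * Real.cos x := by
    have : Real.sin x ^ 2 * (1 - Real.sin x ^ 2) = (Real.sin x * Real.cos x) ^ 2 := by
      rw [← Real.cos_sq']; ring
    rw [this, Real.sqrt_sq (by positivity)]
  simp only
  rw [e1, abs_of_pos (by positivity)]
  rw [Complex.real_smul]
  have hs' : ((Real.sin x : ℝ) : ℂ) ≠ 0 := by exact_mod_cast hs.ne'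
  have hc' : ((Real.cos x : ℝ) : ℂ) ≠ 0 := by exact_mod_cast hc.ne'
  rw [Complex.ofReal_mul, Complex.ofReal_mul, Complex.ofReal_mul]
  generalize ((Real.sin x : ℝ) : ℂ) = S at *
  generalize ((Real.cos x : ℝ) : ℂ) = C at *
  push_cast
  field_simp

theorem slit_of_mem {t : ℂ} (ht : t ∈ UU) {x : ℝ} (h0 : 0 ≤ x) (h1 : x ≤ 1) :
    1 - t * x ≠ 0 := by
  intro h
  have hre : (1 - t * x).re = 0 := by rw [h]; simp
  have him : (1 - t * x).im = 0 := by rw [h]; simp
  simp at hre him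
  rcases ht with ht | ⟨ht, ht'⟩
  · rcases him with him | him
    · exact ht him
    · subst him; simp at hre
  · nlinarith

theorem slit_of_mem' {t : ℂ} (ht : t ∈ UU) {x : ℝ} (h0 : 0 ≤ x) (h1 : x ≤ 1) :
    1 - (1 - t) * x ≠ 0 := by
  refine slit_of_mem (t := 1 - t) ?_ h0 h1
  rcases ht with ht | ⟨ht, ht'⟩
  · left; simpa using ht
  · right; constructor <;> simp <;> linarith

theorem slitPlane_of_mem {t : ℂ} (ht : t ∈ UU) {x : ℝ} (h0 : 0 ≤ x) (h1 : x ≤ 1) :
    1 - t * x ∈ Complex.slitPlane := by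
  rw [Complex.mem_slitPlane_iff]
  by_cases hx : x = 0
  · left; subst hx; simp
  · have hx0 : 0 < x := lt_of_le_of_ne h0 (Ne.symm hx)
    rcases ht with ht | ⟨ht, ht'⟩
    · right
      simp only [Complex.sub_im, Complex.one_im, Complex.mul_im, Complex.ofReal_re,
        Complex.ofReal_im, mul_zero, zero_add, zero_sub, ne_eq, neg_eq_zero]
      exact mul_ne_zero ht hx
    · left
      simp only [Complex.sub_re, Complex.one_re, Complex.mul_re, Complex.ofReal_re,
        Complex.ofReal_im, mul_zero, sub_zero]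
      nlinarith

theorem cpow_intervalIntegrable {t : ℂ} (ht : t ∈ UU) (a : ℂ) :
    IntervalIntegrable (fun θ : ℝ => (1 - t * ((Real.sin θ : ℝ) : ℂ) ^ 2) ^ a) volume 0
      (Real.pi / 2) := by
  apply ContinuousOn.intervalIntegrable
  intro θ _
  apply ContinuousAt.continuousWithinAt
  have h1 : (1 - t * ((Real.sin θ : ℝ) : ℂ) ^ 2) ∈ Complex.slitPlane := by
    have := slitPlane_of_mem ht (sq_nonneg (Real.sin θ)) (Real.sin_sq_le_one θ)
    rwa [Complex.ofReal_pow] at this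
  have hc : Continuous fun θ : ℝ => (1 - t * ((Real.sin θ : ℝ) : ℂ) ^ 2) := by fun_prop
  exact ContinuousAt.cpow (f := fun θ : ℝ => (1 - t * ((Real.sin θ : ℝ) : ℂ) ^ 2))
    (g := fun _ => a) hc.continuousAt continuousAt_const h1

theorem one_sub_mem {t : ℂ} (ht : t ∈ UU) : 1 - t ∈ UU := by
  rcases ht with ht | ⟨ht, ht'⟩
  · left; simpa using ht
  · right; constructor <;> simp <;> linarith

theorem PP_eq {t : ℂ} (ht : t ∈ UU) : PP t = PR t * !![4, 0; 0, -(4 * Complex.I)] := by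
  ext i j
  fin_cases i <;> fin_cases j
  · -- (0, 0)
    have h := integral_sin_sq (fun u : ℝ => (1 - t * u) ^ (-(1 / 2) : ℂ))
    simp only [PP, PR, Matrix.of_apply, Fin.zero_eta, if_true, Fin.val_zero, pow_zero, one_mul,
      Matrix.mul_apply, Fin.sum_univ_two, Matrix.cons_val', Matrix.cons_val_zero,
      Matrix.cons_val_one, Matrix.cons_val_fin_one, mul_zero, add_zero]
    rw [h, EK]
    simp only [Complex.ofReal_pow]
    ring
  · -- (0, 1)
    have h := integral_sin_sq (fun u : ℝ => (1 - (1 - t) * u) ^ (-(1 / 2) : ℂ))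
    simp only [PP, PR, Matrix.of_apply, Fin.zero_eta, Fin.mk_one, Fin.val_zero, pow_zero, one_mul,
      one_ne_zero, if_false,
      Matrix.mul_apply, Fin.sum_univ_two, Matrix.cons_val', Matrix.cons_val_zero,
      Matrix.cons_val_one, Matrix.cons_val_fin_one, mul_zero, zero_add]
    rw [h, EK]
    simp only [Complex.ofReal_pow]
    ring
  · -- (1, 0)
    have h := integral_sin_sq (fun u : ℝ => (t * u) * (1 - t * u) ^ (-(1 / 2) : ℂ))
    simp only [PP, PR, Matrix.of_apply, Fin.zero_eta, Fin.mk_one, Fin.val_one, pow_one, if_true,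
      Matrix.mul_apply, Fin.sum_univ_two, Matrix.cons_val', Matrix.cons_val_zero,
      Matrix.cons_val_one, Matrix.cons_val_fin_one, mul_zero, add_zero]
    rw [h, EK, EE, ← intervalIntegral.integral_sub (cpow_intervalIntegrable ht _)
      (cpow_intervalIntegrable ht _)]
    have : ∀ θ : ℝ, (t * ((Real.sin θ ^ 2 : ℝ) : ℂ)) *
        (1 - t * ((Real.sin θ ^ 2 : ℝ) : ℂ)) ^ (-(1 / 2) : ℂ) =
        (1 - t * ((Real.sin θ : ℝ) : ℂ) ^ 2) ^ (-(1 / 2) : ℂ) -
          (1 - t * ((Real.sin θ : ℝ) : ℂ) ^ 2) ^ ((1 / 2) : ℂ) := by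
      intro θ
      have hz := slit_of_mem ht (sq_nonneg (Real.sin θ)) (Real.sin_sq_le_one θ)
      rw [Complex.ofReal_pow] at hz ⊢
      set z := 1 - t * ((Real.sin θ : ℝ) : ℂ) ^ 2 with hzdef
      have h2 : z ^ ((1 / 2) : ℂ) = z * z ^ (-(1 / 2) : ℂ) := by
        rw [show ((1 / 2) : ℂ) = 1 + -(1 / 2) by ring, Complex.cpow_add _ _ hz,
          Complex.cpow_one]
        norm_num
      rw [h2]
      have : t * ((Real.sin θ : ℝ) : ℂ) ^ 2 = 1 - z := by rw [hzdef]; ring
      rw [this]; ring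
    simp only [this]
    ring
  · -- (1, 1)
    have h := integral_sin_sq (fun u : ℝ => (1 - (1 - t) * u) * (1 - (1 - t) * u) ^ (-(1 / 2) : ℂ))
    simp only [PP, PR, Matrix.of_apply, Fin.mk_one, Fin.val_one, pow_one,
      one_ne_zero, if_false,
      Matrix.mul_apply, Fin.sum_univ_two, Matrix.cons_val', Matrix.cons_val_zero,
      Matrix.cons_val_one, Matrix.cons_val_fin_one, mul_zero, zero_add]
    rw [h, EE]
    have : ∀ θ : ℝ, (1 - (1 - t) * ((Real.sin θ ^ 2 : ℝ) : ℂ)) *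
        (1 - (1 - t) * ((Real.sin θ ^ 2 : ℝ) : ℂ)) ^ (-(1 / 2) : ℂ) =
          (1 - (1 - t) * ((Real.sin θ : ℝ) : ℂ) ^ 2) ^ ((1 / 2) : ℂ) := by
      intro θ
      have hz := slit_of_mem' ht (sq_nonneg (Real.sin θ)) (Real.sin_sq_le_one θ)
      rw [Complex.ofReal_pow] at hz ⊢
      set z := 1 - (1 - t) * ((Real.sin θ : ℝ) : ℂ) ^ 2 with hzdef
      rw [show ((1 / 2) : ℂ) = 1 + -(1 / 2) by ring, Complex.cpow_add _ _ hz,
          Complex.cpow_one]
      norm_num
    simp only [this]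
    ring

/-- The entries of `PP` are the periods in the usual sense for real `t`. -/
theorem PP_real {t : ℝ} (h0 : 0 < t) (h1 : t < 1) (i : Fin 2) :
    PP t i 0 = 2 * ∫ x in (0 : ℝ)..t, (x : ℂ) ^ (i : ℕ) / (Real.sqrt (x * (x - 1) * (x - t)) : ℝ) ∧
    PP t i 1 = 2 * ∫ x in t..1, (x : ℂ) ^ (i : ℕ) /
      (Complex.I * (Real.sqrt (-(x * (x - 1) * (x - t))) : ℝ)) := by
  have hcp : ∀ x : ℝ, 0 < x → ((x : ℂ)) ^ (-(1 / 2) : ℂ) = ((Real.sqrt x : ℝ) : ℂ)⁻¹ := by
    intro x hx
    have : ((x : ℂ)) ^ (-(1 / 2) : ℂ) = ((x ^ (-(1 / 2) : ℝ) : ℝ) : ℂ) := by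
      rw [Complex.ofReal_cpow hx.le]; push_cast; rfl
    rw [this, Real.rpow_neg hx.le, ← Real.sqrt_eq_rpow, Complex.ofReal_inv]
  constructor
  · simp only [PP, Matrix.of_apply, if_true]
    congr 1
    have h2 := intervalIntegral.smul_integral_comp_mul_left
      (fun x : ℝ => (x : ℂ) ^ (i : ℕ) / (Real.sqrt (x * (x - 1) * (x - t)) : ℝ)) (a := 0) (b := 1) t
    rw [mul_zero, mul_one] at h2
    rw [← h2, ← intervalIntegral.integral_smul]
    rw [intervalIntegral.integral_of_le zero_le_one, intervalIntegral.integral_of_le zero_le_one,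
      integral_Ioc_eq_integral_Ioo, integral_Ioc_eq_integral_Ioo]
    refine setIntegral_congr_fun measurableSet_Ioo ?_
    intro u hu
    have hu0 := hu.1
    have hu1 := hu.2
    have h3 : 0 < 1 - t * u := by nlinarith
    have e1 : t * u * (t * u - 1) * (t * u - t) = t ^ 2 * ((u * (1 - u)) * (1 - t * u)) := by ring
    have hsq : Real.sqrt (t * u * (t * u - 1) * (t * u - t)) =
        t * (Real.sqrt (u * (1 - u)) * Real.sqrt (1 - t * u)) := by
      rw [e1, Real.sqrt_mul (sq_nonneg t), Real.sqrt_sq h0.le,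
        Real.sqrt_mul (mul_nonneg hu0.le (by linarith))]
    have e2 : (1 - (t : ℂ) * u) ^ (-(1 / 2) : ℂ) = ((Real.sqrt (1 - t * u) : ℝ) : ℂ)⁻¹ := by
      have := hcp (1 - t * u) h3
      push_cast at this
      exact this
    simp only
    rw [hsq, e2]
    have hA : ((Real.sqrt (u * (1 - u)) : ℝ) : ℂ) ≠ 0 := by
      have : 0 < Real.sqrt (u * (1 - u)) := Real.sqrt_pos.2 (mul_pos hu0 (by linarith))
      exact_mod_cast this.ne'
    have hB : ((Real.sqrt (1 - t * u) : ℝ) : ℂ) ≠ 0 := by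
      have : 0 < Real.sqrt (1 - t * u) := Real.sqrt_pos.2 h3
      exact_mod_cast this.ne'
    have ht : (t : ℂ) ≠ 0 := by exact_mod_cast h0.ne'
    rw [Complex.real_smul]
    generalize Real.sqrt (u * (1 - u)) = A at *
    generalize Real.sqrt (1 - t * u) = B at *
    push_cast
    field_simp
  · simp only [PP, Matrix.of_apply, one_ne_zero, if_false]
    have h1' : (0 : ℝ) < 1 - t := by linarith
    have h2 := intervalIntegral.smul_integral_comp_sub_mul
      (fun x : ℝ => (x : ℂ) ^ (i : ℕ) / (Complex.I * (Real.sqrt (-(x * (x - 1) * (x - t))) : ℝ)))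
      (a := 0) (b := 1) (1 - t) 1
    rw [mul_zero, mul_one, sub_zero, show (1 : ℝ) - (1 - t) = t by ring] at h2
    rw [← h2, ← intervalIntegral.integral_smul, neg_mul, mul_assoc, ← mul_neg]
    congr 1
    rw [← neg_mul, ← intervalIntegral.integral_const_mul]
    rw [intervalIntegral.integral_of_le zero_le_one, intervalIntegral.integral_of_le zero_le_one,
      integral_Ioc_eq_integral_Ioo, integral_Ioc_eq_integral_Ioo]
    refine setIntegral_congr_fun measurableSet_Ioo ?_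
    intro u hu
    have hu0 := hu.1
    have hu1 := hu.2
    have h3 : 0 < 1 - (1 - t) * u := by nlinarith
    have e1 : -((1 - (1 - t) * u) * (1 - (1 - t) * u - 1) * (1 - (1 - t) * u - t)) =
        (1 - t) ^ 2 * ((u * (1 - u)) * (1 - (1 - t) * u)) := by ring
    have hsq : Real.sqrt (-((1 - (1 - t) * u) * (1 - (1 - t) * u - 1) * (1 - (1 - t) * u - t))) =
        (1 - t) * (Real.sqrt (u * (1 - u)) * Real.sqrt (1 - (1 - t) * u)) := by
      rw [e1, Real.sqrt_mul (sq_nonneg (1 - t)), Real.sqrt_sq h1'.le,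
        Real.sqrt_mul (mul_nonneg hu0.le (by linarith))]
    have e2 : (1 - (1 - (t : ℂ)) * u) ^ (-(1 / 2) : ℂ) =
        ((Real.sqrt (1 - (1 - t) * u) : ℝ) : ℂ)⁻¹ := by
      have := hcp (1 - (1 - t) * u) h3
      push_cast at this
      exact this
    simp only
    rw [hsq, e2]
    have hA : ((Real.sqrt (u * (1 - u)) : ℝ) : ℂ) ≠ 0 := by
      have : 0 < Real.sqrt (u * (1 - u)) := Real.sqrt_pos.2 (mul_pos hu0 (by linarith))
      exact_mod_cast this.ne'
    have hB : ((Real.sqrt (1 - (1 - t) * u) : ℝ) : ℂ) ≠ 0 := by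
      have : 0 < Real.sqrt (1 - (1 - t) * u) := Real.sqrt_pos.2 h3
      exact_mod_cast this.ne'
    have ht : (1 - (t : ℂ)) ≠ 0 := by exact_mod_cast h1'.ne'
    rw [Complex.real_smul]
    generalize Real.sqrt (u * (1 - u)) = A at *
    generalize Real.sqrt (1 - (1 - t) * u) = B at *
    push_cast
    have hI : Complex.I ≠ 0 := Complex.I_ne_zero
    field_simp
    rw [Complex.I_sq]
    ring

end Pool.Agent.Helper37.GP
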